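import Pool.Agent.X172.GR.Stm

set_option autoImplicit false

namespace Pool.Agent.X59.GR

open Pool.Agent.X172.GR

variable {n : ℕ} {T : ℕ → Fin 6}

theorem rd_ty {i : ℕ} {w : List Ltr} (h : Rd T i w) :
    ∀ j, j < w.length → (w[j]?).map Prod.fst = some (T (i + j)) := by
  induction w generalizing i with
  | nil => intro j hj; simp at hj
  | cons a w ih =>
    intro j hj
    obtain ⟨h1, h2⟩ := h
    cases j with
    | zero => simp [h1]
    | succ j =>
      have := ih h2 j (by simpa using hj)
      have e : i + 1 + j = i + (j + 1) := by omega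
      rw [e] at this
      simpa using this

theorem rd_append {i : ℕ} {p r : List Ltr} :
    Rd T i (p ++ r) ↔ Rd T i p ∧ Rd T (i + p.length) r := by
  induction p generalizing i with
  | nil => simp [Rd]
  | cons a p ih =>
    have e : i + 1 + p.length = i + (p.length + 1) := by omega
    simp [Rd, ih, and_assoc, e]

theorem rdb_prefix {p w : List Ltr} (h : p <+: w) (hw : Readable T w) : Readable T p := by
  obtain ⟨r, rfl⟩ := h
  obtain ⟨i, hi⟩ := hw
  exact ⟨i, (rd_append.1 hi).1⟩

theorem rdb_suffix {p w : List Ltr} (h : p <:+ w) (hw : Readable T w) : Readable T p := by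
  obtain ⟨r, rfl⟩ := h
  obtain ⟨i, hi⟩ := hw
  exact ⟨_, (rd_append.1 hi).2⟩

theorem ne5 (hT : Ty n T) {i : ℕ} {w : List Ltr} (h : Rd T i w) : ∀ a ∈ w, a.1 ≠ 5 := by
  induction w generalizing i with
  | nil => simp
  | cons b w ih =>
    intro a ha
    rcases List.mem_cons.1 ha with rfl | ha
    · rw [h.1]
      exact hT.ne5 i
    · exact ih h.2 a ha

theorem pre {s t : List Ltr} (hs : s ≠ []) (ht : t ≠ []) (rs : Readable T s) (rt : Readable T t)
    (h : LE n T (s ++ t ++ [(5, false)]) (t ++ s ++ [(5, false)])) (K : ℕ) (hK : K ≤ n)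
    (hK' : K ≤ s.length + 1 ∨ K ≤ t.length + 1) :
    ∃ p : List Ltr, p.length = K ∧ p <+: s ++ t ∧ p <+: t ++ s := by
  have hs0 := List.length_pos_of_ne_nil hs
  have ht0 := List.length_pos_of_ne_nil ht
  rcases h with h | ⟨p, h1, h2, h3⟩
  · have e := List.append_cancel_right h
    refine ⟨(s ++ t).take K, ?_, List.take_prefix _ _, ?_⟩
    · rw [List.length_take, List.length_append]
      omega
    · rw [e]
      exact List.take_prefix _ _
  · have hp : K ≤ p.length := by
      rcases h3 with h3 | h3
      · by_contra hlt
        rcases hK' with hh | hh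
        · refine h3 (rdb_prefix (List.prefix_of_prefix_length_le h1 ?_ (by omega)) rs)
          rw [List.append_assoc]
          exact List.prefix_append _ _
        · refine h3 (rdb_prefix (List.prefix_of_prefix_length_le h2 ?_ (by omega)) rt)
          rw [List.append_assoc]
          exact List.prefix_append _ _
      · omega
    refine ⟨p.take K, by rw [List.length_take]; omega, ?_, ?_⟩
    · refine List.prefix_of_prefix_length_le ((List.take_prefix _ _).trans h1)
        (List.prefix_append _ _) ?_
      rw [List.length_take, List.length_append]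
      omega
    · refine List.prefix_of_prefix_length_le ((List.take_prefix _ _).trans h2)
        (List.prefix_append _ _) ?_
      rw [List.length_take, List.length_append]
      omega

theorem suf (hT : Ty n T) {s t : List Ltr} (hs : s ≠ []) (ht : t ≠ []) (rs : Readable T s)
    (rt : Readable T t) (h : RE n T ((5, false) :: (s ++ t)) ((5, false) :: (t ++ s))) (K : ℕ)
    (hK : K ≤ n) (hK' : K ≤ s.length + 1 ∨ K ≤ t.length + 1) :
    ∃ q : List Ltr, q.length = K ∧ q <:+ s ++ t ∧ q <:+ t ++ s := by
  have hs0 := List.length_pos_of_ne_nil hs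
  have ht0 := List.length_pos_of_ne_nil ht
  have key : ∀ q : List Ltr, K ≤ q.length → q <:+ (5, false) :: (s ++ t) →
      q <:+ (5, false) :: (t ++ s) → ∃ q : List Ltr, q.length = K ∧ q <:+ s ++ t ∧ q <:+ t ++ s := by
    intro q hq h1 h2
    have hl : (q.drop (q.length - K)).length = K := by rw [List.length_drop]; omega
    refine ⟨q.drop (q.length - K), hl, ?_, ?_⟩
    · refine List.suffix_of_suffix_length_le ((List.drop_suffix _ _).trans h1)
        (List.suffix_cons _ _) ?_
      rw [hl, List.length_append]
      omega
    · refine List.suffix_of_suffix_length_le ((List.drop_suffix _ _).trans h2)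
        (List.suffix_cons _ _) ?_
      rw [hl, List.length_append]
      omega
  rcases h with h | ⟨q, h1, h2, h3⟩ | ⟨a, m, z, z', h1, h2, h3⟩
  · have e := (List.cons.inj h).2
    refine key (s ++ t) ?_ (List.suffix_cons _ _) ?_
    · rw [List.length_append]
      omega
    · rw [e]
      exact List.suffix_cons _ _
  · refine key q ?_ h1 h2
    by_contra hlt
    rcases hK' with hh | hh
    · refine h3 (rdb_suffix (List.suffix_of_suffix_length_le h2 ?_ (by omega)) rs)
      exact (List.suffix_append _ _).trans (List.suffix_cons _ _)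
    · refine h3 (rdb_suffix (List.suffix_of_suffix_length_le h1 ?_ (by omega)) rt)
      exact (List.suffix_append _ _).trans (List.suffix_cons _ _)
  · obtain ⟨v, _, _, _, hzv, hz, hv⟩ := h1
    obtain ⟨v', _, _, _, hzv', hz', hv'⟩ := h2
    have hne : a ≠ some (5, true) := by
      intro ha
      rcases hv with ⟨hv, _⟩ | ⟨b, y, hb, hw, _⟩
      · rw [ha] at hv
        exact absurd hv (by simp)
      · rw [ha] at hb
        have hb' : b = (5, true) := (Option.some.inj hb).symm
        have hmem : ((5, true) : Ltr) ∈ (5, false) :: (s ++ t) := by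
          rw [hw, hb']
          simp
        rcases List.mem_cons.1 hmem with h4 | h4
        · exact absurd h4 (by simp)
        · obtain ⟨i, hi⟩ := rs
          obtain ⟨j, hj⟩ := rt
          rcases List.mem_append.1 h4 with h5 | h5
          · exact ne5 hT hi _ h5 rfl
          · exact ne5 hT hj _ h5 rfl
    have e : z = z' := by
      rcases h3 with h3 | h3
      · exact h3
      · exact absurd h3.1 hne
    subst e
    have c1 : v <:+ (5, false) :: (s ++ t) := by
      rcases hv with ⟨_, hv⟩ | ⟨b, y, _, hw, _⟩
      · rw [hv]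
      · rw [hw]
        exact (List.suffix_cons _ _).trans (List.suffix_append _ _)
    have c2 : v' <:+ (5, false) :: (t ++ s) := by
      rcases hv' with ⟨_, hv⟩ | ⟨b, y, _, hw, _⟩
      · rw [hv]
      · rw [hw]
        exact (List.suffix_cons _ _).trans (List.suffix_append _ _)
    exact key z (by omega) (hzv.trans c1) (hzv'.trans c2)

theorem idx (hn : 0 < n) (hT : Ty n T) {i i' : ℕ} {p : List Ltr} (h : Rd T i p) (h' : Rd T i' p)
    (hp : p.length = n) : i ≡ i' [MOD n] := by
  set j := n - 1 - i % n with hj
  have hlt := Nat.mod_lt i hn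
  have hjn : j < p.length := by omega
  have e1 : n ∣ i + j + 1 := by
    refine ⟨i / n + 1, ?_⟩
    have := Nat.div_add_mod i n
    rw [Nat.mul_add, Nat.mul_one]
    omega
  have h1 := rd_ty h j hjn
  have h2 := rd_ty h' j hjn
  rw [h1] at h2
  have h3 := Option.some.inj h2
  rw [(hT.hash _).2 e1] at h3
  have e2 := (hT.hash _).1 h3.symm
  have e3 : i + (j + 1) ≡ i' + (j + 1) [MOD n] := by
    have a1 : i + (j + 1) ≡ 0 [MOD n] := (Nat.modEq_zero_iff_dvd).2 (by simpa [add_assoc] using e1)
    have a2 : i' + (j + 1) ≡ 0 [MOD n] := (Nat.modEq_zero_iff_dvd).2 (by simpa [add_assoc] using e2)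
    exact a1.trans a2.symm
  exact Nat.ModEq.add_right_cancel' _ e3

theorem pre_get {p l : List Ltr} (h : p <+: l) {k : ℕ} (hk : k < p.length) : l[k]? = p[k]? := by
  obtain ⟨r, rfl⟩ := h
  exact List.getElem?_append_left hk

theorem suf_get {q l : List Ltr} (h : q <:+ l) {k : ℕ} (hk : l.length - q.length ≤ k) :
    l[k]? = q[k - (l.length - q.length)]? := by
  obtain ⟨r, rfl⟩ := h
  rw [List.length_append, Nat.add_sub_cancel] at hk ⊢
  exact List.getElem?_append_right hk

/-- one short, one long: impossible -/
theorem short (hT : Ty n T) {i : ℕ} {s t : List Ltr} (rt : Rd T i t) (hs0 : 0 < s.length)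
    (hsn : s.length < n) (htn : n ≤ t.length)
    (h : ∀ k, k < n → (s ++ t)[k]? = (t ++ s)[k]?) : False := by
  have hA : ∀ j, j < n - s.length → T (i + s.length + j) = T (i + s.length + (n - s.length) + j) := by
    intro j hj
    have h1 := h (s.length + j) (by omega)
    rw [List.getElem?_append_right (by omega), List.getElem?_append_left (by omega),
      Nat.add_sub_cancel_left] at h1
    have h2 := rd_ty rt j (by omega)
    have h3 := rd_ty rt (s.length + j) (by omega)
    rw [← h1, h2] at h3
    have h4 := Option.some.inj h3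
    have h5 := hT.per (i + j)
    rw [show i + s.length + j = i + (s.length + j) by omega, ← h4, ← h5]
    congr 1
    omega
  obtain ⟨j, hj, hj'⟩ := hT.sqf (i + s.length) (n - s.length) (by omega)
    (fun hd => by have := Nat.le_of_dvd (by omega) hd; omega)
  exact hj' (hA j hj)

/-- both short, `|s| < |t|`: impossible -/
theorem small (hT : Ty n T) {i : ℕ} {s t : List Ltr} (rt : Rd T i t) (hs0 : 0 < s.length)
    (hst : s.length < t.length) (htn : t.length < n) (h : s ++ t = t ++ s) : False := by
  have hA : ∀ k, s.length ≤ k → k < t.length → T (i + (k - s.length)) = T (i + k) := by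
    intro k h1 h2
    have h3 : (s ++ t)[k]? = (t ++ s)[k]? := by rw [h]
    rw [List.getElem?_append_right (by omega), List.getElem?_append_left (by omega)] at h3
    have h4 := rd_ty rt (k - s.length) (by omega)
    have h5 := rd_ty rt k h2
    rw [← h3, h4] at h5
    exact Option.some.inj h5
  have hB : ∀ j, j < s.length → T (i + j) = T (i + (t.length - s.length + j)) := by
    intro j h1
    have h2 : (s ++ t)[j]? = (t ++ s)[j]? := by rw [h]
    rw [List.getElem?_append_left (by omega), List.getElem?_append_left (by omega)] at h2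
    have h3 : (s ++ t)[t.length + j]? = (t ++ s)[t.length + j]? := by rw [h]
    rw [List.getElem?_append_right (by omega), List.getElem?_append_right (by omega),
      Nat.add_sub_cancel_left, h2] at h3
    have h4 := rd_ty rt (t.length + j - s.length) (by omega)
    have h5 := rd_ty rt j (by omega)
    rw [← h3, h4] at h5
    have h6 := Option.some.inj h5
    rw [← h6]
    congr 1
    omega
  rcases Nat.lt_or_ge t.length (2 * s.length) with h1 | h1
  · obtain ⟨j, hj, hj'⟩ := hT.sqf i (t.length - s.length) (by omega)
      (fun hd => by have := Nat.le_of_dvd (by omega) hd; omega)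
    apply hj'
    rw [hB j (by omega)]
    congr 1
    omega
  · obtain ⟨j, hj, hj'⟩ := hT.sqf i s.length hs0
      (fun hd => by have := Nat.le_of_dvd (by omega) hd; omega)
    apply hj'
    have := hA (s.length + j) (by omega) (by omega)
    rw [Nat.add_sub_cancel_left] at this
    rw [this]
    congr 1
    omega

theorem t_COM : S_COM := by
  intro n T hn hT s t hs ht rs rt hL hR
  have hs0 := List.length_pos_of_ne_nil hs
  have ht0 := List.length_pos_of_ne_nil ht
  rcases Nat.lt_or_ge s.length n with h1 | h1 <;> rcases Nat.lt_or_ge t.length n with h2 | h2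
  · -- both short
    have hK : max s.length t.length + 1 ≤ n := by omega
    have hK' : max s.length t.length + 1 ≤ s.length + 1 ∨
        max s.length t.length + 1 ≤ t.length + 1 := by omega
    obtain ⟨p, hp, p1, p2⟩ := pre hs ht rs rt hL _ hK hK'
    obtain ⟨q, hq, q1, q2⟩ := suf hT hs ht rs rt hR _ hK hK'
    have e : s ++ t = t ++ s := by
      apply List.ext_getElem?
      intro k
      rcases Nat.lt_or_ge k p.length with h3 | h3
      · rw [pre_get p1 h3, pre_get p2 h3]
      · have l1 : (s ++ t).length = s.length + t.length := List.length_append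
        have l2 : (t ++ s).length = s.length + t.length := by
          rw [List.length_append, Nat.add_comm]
        rw [suf_get q1 (by omega), suf_get q2 (by omega), l1, l2]
    rcases lt_trichotomy s.length t.length with h3 | h3 | h3
    · obtain ⟨i, hi⟩ := rt
      exact (small hT hi hs0 h3 h2 e).elim
    · obtain ⟨e1, -⟩ := List.append_inj e h3
      subst e1
      exact ⟨Or.inl rfl, Or.inl rfl⟩
    · obtain ⟨i, hi⟩ := rs
      exact (small hT hi ht0 h3 h1 e.symm).elim
  · obtain ⟨p, hp, p1, p2⟩ := pre hs ht rs rt hL n le_rfl (Or.inr (by omega))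
    obtain ⟨i, hi⟩ := rt
    refine (short hT hi hs0 h1 h2 fun k hk => ?_).elim
    rw [pre_get p1 (by omega), pre_get p2 (by omega)]
  · obtain ⟨p, hp, p1, p2⟩ := pre hs ht rs rt hL n le_rfl (Or.inl (by omega))
    obtain ⟨i, hi⟩ := rs
    refine (short hT hi ht0 h2 h1 fun k hk => ?_).elim
    rw [pre_get p1 (by omega), pre_get p2 (by omega)]
  · obtain ⟨p, hp, p1, p2⟩ := pre hs ht rs rt hL n le_rfl (Or.inl (by omega))
    obtain ⟨q, hq, q1, q2⟩ := suf hT hs ht rs rt hR n le_rfl (Or.inl (by omega))
    have ps : p <+: s := List.prefix_of_prefix_length_le p1 (List.prefix_append _ _) (by omega)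
    have pt : p <+: t := List.prefix_of_prefix_length_le p2 (List.prefix_append _ _) (by omega)
    have qt : q <:+ t := List.suffix_of_suffix_length_le q1 (List.suffix_append _ _) (by omega)
    have qs : q <:+ s := List.suffix_of_suffix_length_le q2 (List.suffix_append _ _) (by omega)
    have hmod : t.length % n = s.length % n := by
      obtain ⟨i, hi⟩ := rs
      obtain ⟨i', hi'⟩ := rt
      have hn0 : 0 < n := by omega
      have e1 : i ≡ i' [MOD n] := by
        obtain ⟨r, hr⟩ := ps
        obtain ⟨r', hr'⟩ := pt
        rw [← hr] at hi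
        rw [← hr'] at hi'
        exact idx hn0 hT (rd_append.1 hi).1 (rd_append.1 hi').1 hp
      obtain ⟨a, ha⟩ := qs
      obtain ⟨b, hb⟩ := qt
      have e2 : i + a.length ≡ i' + b.length [MOD n] := by
        rw [← ha] at hi
        rw [← hb] at hi'
        exact idx hn0 hT (rd_append.1 hi).2 (rd_append.1 hi').2 hq
      have e3 : a.length ≡ b.length [MOD n] := Nat.ModEq.add_left_cancel e1 e2
      have e4 : a.length + q.length ≡ b.length + q.length [MOD n] := e3.add_right _
      rw [← List.length_append, ← List.length_append, ha, hb] at e4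
      exact e4.symm
    refine ⟨Or.inr ⟨p, ps, pt, Or.inr hp⟩, Or.inr (Or.inr ⟨none, s.length % n, q, q, ?_, ?_,
      Or.inl rfl⟩)⟩
    · exact ⟨s, rs, h1, rfl, qs, hq, Or.inl ⟨rfl, rfl⟩⟩
    · exact ⟨t, rt, h2, hmod, qt, hq, Or.inl ⟨rfl, rfl⟩⟩

end Pool.Agent.X59.GR
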